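import Pool.Agent.Lib.helper1.EH
set_option autoImplicit false
open Finset
namespace Pool.Agent.Results.MP_6ea067_co.Tau

def Free {p : ℕ} (A : Finset (ZMod p)) : Prop :=
  ∀ a ∈ A, ∀ b ∈ A, ∀ c ∈ A, a ≠ b → a ≠ c → b ≠ c → ∀ s t u : ℤˣ, s • a + t • b + u • c ≠ 0

open Lib.helper1

lemma low (k p : ℕ) (h : 3 * k ≤ p) (h' : p ≤ 3 * k + 2) (h0 : 2 * k < p) :
    ∃ A : Finset (ZMod p), Free A ∧ A.card = k + 1 := by
  refine ⟨(Icc k (2 * k)).image Nat.cast, ?_, ?_⟩
  · simp only [Free, forall_mem_image, mem_Icc]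
    intro a ha b hb c hc ab ac bc s t u e
    have ab : a ≠ b := fun q => ab (by rw [q])
    have ac : a ≠ c := fun q => ac (by rw [q])
    have bc : b ≠ c := fun q => bc (by rw [q])
    obtain ⟨j, hj⟩ : (p : ℤ) ∣ s * a + t * b + u * c := by
      rw [← ZMod.intCast_zmod_eq_zero_iff_dvd, ← e]
      simp [Units.smul_def]
    have : j ≤ -2 ∨ j = -1 ∨ j = 0 ∨ j = 1 ∨ 2 ≤ j := by omega
    have q : p * j ≤ -2 * p ∨ p * j = -p ∨ p * j = 0 ∨ p * j = p ∨ 2 * p ≤ p * j := by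
      rcases this with q | rfl | rfl | rfl | q
      · left; nlinarith
      · simp
      · simp
      · simp
      · right; right; right; right; nlinarith
    rw [← hj] at q
    rcases Int.units_eq_one_or s with rfl | rfl <;> rcases Int.units_eq_one_or t with rfl | rfl <;>
      rcases Int.units_eq_one_or u with rfl | rfl <;>
      simp only [Units.val_one, Units.val_neg] at q <;> omega
  · rw [card_image_of_injOn, Nat.card_Icc]
    · omega
    intro u hu v hv e
    have hu := mem_Icc.1 hu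
    have hv := mem_Icc.1 hv
    exact Nat.ModEq.eq_of_lt_of_lt ((ZMod.natCast_eq_natCast_iff _ _ _).1 e) (by omega) (by omega)

lemma two {p : ℕ} [hp : Fact p.Prime] {A : Finset (ZMod p)} (hA : Free A) (h0 : 0 ∈ A)
    (hc : A.card = p / 3 + 2) {y z : ZMod p} (hy : y ∈ A) (hz : z ∈ A) (y0 : y ≠ 0) (z0 : z ≠ 0)
    (yz : y ≠ z) (h2 : (2 : ZMod p) ≠ 0) : -2 * y ∈ A ∨ -2 * z ∈ A := by
  by_contra! q
  have pm (a) (ha : a ∈ A) (a0 : a ≠ 0) : -a ∉ A := fun h =>
    hA a ha _ h 0 h0 (fun e => mul_ne_zero h2 a0 (by linear_combination e)) a0 (neg_ne_zero.2 a0)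
      1 1 1 (by simp)
  have k (w) (hw : w ∈ A) (w2 : -2 * w ∉ A) (a) (ha : a ∈ A) (b) (hb : b ∈ A) (ab : a ≠ b) :
      a + b ≠ -w := fun e => by
    refine hA a ha b hb w hw ab ?_ ?_ 1 1 1 (by simp [e])
    · rintro rfl; exact w2 (by rwa [show -2 * a = b by linear_combination -e])
    · rintro rfl; exact w2 (by rwa [show -2 * b = a by linear_combination -e])
  have := erdos_heilbronn p (A.erase 0) (insert (-y) (insert (-z) A))
    (by rw [card_erase_of_mem h0]; omega) fun a ha b hb ab h => by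
      obtain ⟨a0, ha⟩ := mem_erase.1 ha
      obtain ⟨b0, hb⟩ := mem_erase.1 hb
      simp only [mem_insert] at h
      rcases h with h | h | h
      · exact k y hy q.1 a ha b hb ab h
      · exact k z hz q.2 a ha b hb ab h
      · exact hA a ha b hb _ h ab (by simpa using b0) (by simpa using a0) 1 1 (-1) (by simp; ring)
  rw [card_insert_of_notMem (by simpa [yz] using pm y hy y0), card_insert_of_notMem (pm z hz z0),
    card_erase_of_mem h0] at this
  omega

lemma up {p : ℕ} [hp : Fact p.Prime] (h7 : 7 ≤ p) {A : Finset (ZMod p)} (hA : Free A) :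
    A.card ≤ p / 3 + 1 := by
  by_contra q
  obtain ⟨B, b1, hc⟩ := exists_subset_card_eq (show p / 3 + 2 ≤ A.card by omega)
  replace hA : Free B := fun a ha b hb c hc => hA a (b1 ha) b (b1 hb) c (b1 hc)
  clear b1 q A
  have nz (j : ℕ) (j0 : 0 < j) (j7 : j < 7) : (j : ZMod p) ≠ 0 := fun e => by
    have := Nat.le_of_dvd j0 ((ZMod.natCast_eq_zero_iff _ _).1 e)
    omega
  have h2 : (2 : ZMod p) ≠ 0 := by exact_mod_cast nz 2 (by omega) (by omega)
  have h3 : (3 : ZMod p) ≠ 0 := by exact_mod_cast nz 3 (by omega) (by omega)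
  by_cases h0 : 0 ∈ B
  swap
  · have := erdos_heilbronn p B B (by omega) fun a ha b hb ab h =>
      hA a ha b hb _ h ab (fun e => h0 (left_eq_add.1 e ▸ hb)) (fun e => h0 (right_eq_add.1 e ▸ ha))
        1 1 (-1) (by simp; ring)
    omega
  have pm (a) (ha : a ∈ B) (a0 : a ≠ 0) : -a ∉ B := fun h =>
    hA a ha _ h 0 h0 (fun e => mul_ne_zero h2 a0 (by linear_combination e)) a0 (neg_ne_zero.2 a0)
      1 1 1 (by simp)
  have m2 {a : ZMod p} (a0 : a ≠ 0) : -2 * a ≠ 0 := mul_ne_zero (neg_ne_zero.2 h2) a0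
  obtain ⟨v, hv, v0, hw, w2⟩ : ∃ v ∈ B, v ≠ 0 ∧ -2 * v ∈ B ∧ -2 * (-2 * v) ∈ B := by
    have f (a b) (ha : a ∈ B.erase 0) (hb : b ∈ B.erase 0) (ab : a ≠ b) (a2 : -2 * a ∈ B)
        (b2 : -2 * b ∈ B) : ∃ v ∈ B, v ≠ 0 ∧ -2 * v ∈ B ∧ -2 * (-2 * v) ∈ B := by
      obtain ⟨a0, ha⟩ := mem_erase.1 ha
      obtain ⟨b0, hb⟩ := mem_erase.1 hb
      exact (two hA h0 hc a2 b2 (m2 a0) (m2 b0)
        (fun e => ab (mul_left_cancel₀ (neg_ne_zero.2 h2) e)) h2).elim
        (fun h => ⟨a, ha, a0, a2, h⟩) fun h => ⟨b, hb, b0, b2, h⟩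
    have g (a b) (ha : a ∈ B.erase 0) (hb : b ∈ B.erase 0) (ab : a ≠ b) :=
      two hA h0 hc (mem_erase.1 ha).2 (mem_erase.1 hb).2 (mem_erase.1 ha).1 (mem_erase.1 hb).1 ab h2
    obtain ⟨a, b, c, ha, hb, hc, ab, ac, bc⟩ := two_lt_card_iff.1
      (show 2 < (B.erase 0).card by rw [card_erase_of_mem h0]; omega)
    rcases g a b ha hb ab with h | h
    · exact (g b c hb hc bc).elim (f a b ha hb ab h) (f a c ha hc ac h)
    · exact (g a c ha hc ac).elim (fun h' => f a b ha hb ab h' h) (f b c hb hc bc h)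
  obtain ⟨w, e⟩ : ∃ w, w = -2 * v := ⟨_, rfl⟩
  have w0 : w ≠ 0 := e ▸ m2 v0
  rw [← e] at hw w2
  have vw : v ≠ w := fun q => mul_ne_zero h3 v0 (by linear_combination q + e)
  have ds (a) (ha : a ∈ insert (-w) (B.erase w)) : ∃ s : ℤˣ, ∃ b ∈ B, a = s • b ∧
      a = if b = w then -w else b := by
    rcases mem_insert.1 ha with rfl | h
    · exact ⟨-1, w, hw, by simp, by simp⟩
    · exact ⟨1, a, (mem_erase.1 h).2, by simp, (if_neg (mem_erase.1 h).1).symm⟩
  have hF : Free (insert (-w) (B.erase w)) := by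
    intro a ha b hb c hc ab ac bc s t u
    obtain ⟨s', a', ha', a1, a2⟩ := ds a ha
    obtain ⟨t', b', hb', b1, b2⟩ := ds b hb
    obtain ⟨u', c', hc', c1, c2⟩ := ds c hc
    rw [a1, b1, c1, ← mul_smul, ← mul_smul, ← mul_smul]
    exact hA _ ha' _ hb' _ hc' (fun q => ab (by rw [a2, b2, q])) (fun q => ac (by rw [a2, c2, q]))
      (fun q => bc (by rw [b2, c2, q])) _ _ _
  have nw : -w ∉ B := pm w hw w0
  refine (two hF (mem_insert_of_mem (mem_erase.2 ⟨w0.symm, h0⟩)) (by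
    rw [card_insert_of_notMem fun h => nw (mem_erase.1 h).2, card_erase_of_mem hw]; omega)
    (mem_insert_self _ _) (mem_insert_of_mem (mem_erase.2 ⟨vw, hv⟩)) (neg_ne_zero.2 w0) v0
    (fun q => nw (q ▸ hv)) h2).elim (fun h => ?_) fun h => ?_
  · rcases mem_insert.1 h with h | h
    · exact mul_ne_zero h3 w0 (by linear_combination h)
    · exact pm _ w2 (m2 w0) (by rw [← mul_neg]; exact (mem_erase.1 h).2)
  · rw [← e] at h
    rcases mem_insert.1 h with h | h
    · exact nw (h ▸ hw)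
    · exact (mem_erase.1 h).1 rfl

theorem result (p : ℕ) (hp : p.Prime) :
    IsGreatest {m | ∃ A : Finset (ZMod p), Free A ∧ A.card = m}
      (if p = 2 then 2 else if p = 5 then 3 else p / 3 + 1) := by
  have := Fact.mk hp
  unfold Free
  by_cases h2 : p = 2
  · subst h2
    exact ⟨⟨univ, by decide, rfl⟩, by rintro _ ⟨A, -, rfl⟩; exact card_le_univ A⟩
  by_cases h5 : p = 5
  · subst h5
    refine ⟨⟨({0, 1, 2} : Finset (Fin 5)), by decide +revert, by decide +revert⟩, ?_⟩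
    rintro _ ⟨A, h, rfl⟩
    revert A
    decide +kernel
  rw [if_neg h2, if_neg h5]
  have := hp.two_le
  refine ⟨low _ p (by omega) (by omega) (by omega), ?_⟩
  rintro _ ⟨A, h, rfl⟩
  by_cases h3 : p = 3
  · subst h3
    revert A
    decide +kernel
  refine up ?_ h
  by_contra q
  have : p = 4 ∨ p = 6 := by omega
  rcases this with rfl | rfl <;> exact absurd hp (by decide)

end Pool.Agent.Results.MP_6ea067_co.Tau
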